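import Pool.Agent.helper73.BS.Spec2

/-!
# Project bs, row PV: a normal subgroup of the stabiliser with a nontrivial unipotent block
-/

set_option autoImplicit false

namespace Pool.Agent.BS

open Matrix Module Pool.Agent.UG Pool.Agent.H48SL Pool.Agent.SHL

theorem PV_xe {m : ℕ} {i j : Fin m} (hij : i ≠ j) (k c : ℤ) : xe i j (k * c) = (xe i j k) ^ c := by
  unfold xe
  rw [← tv_zsmul_right (single_dot hij k)]
  congr 1
  rw [← Pi.single_smul, smul_eq_mul, mul_comm]

/-- a line of transvections -/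
theorem PV_line {m : ℕ} {N : Subgroup (SLZ m)} {i j : Fin m} (hij : i ≠ j) {k : ℤ} (hk : k ≠ 0)
    (h : xe i j k ∈ Zc N) (c : ℤ) : xe i j c ∈ Zc N := by
  rw [mem_Zc]
  intro F hF hFN
  obtain ⟨P, hP⟩ := hF.line 1 1 hij
  simp only [one_mul, mul_one] at hP
  have hroot : ∀ r : ℤ, P.IsRoot (k * r) := by
    intro r
    show P.eval (k * r) = 0
    rw [← hP, PV_xe hij]
    exact (mem_Zc.1 ((Zc N).zpow_mem h r)) F hF hFN
  have hinj : Function.Injective fun r : ℤ => k * r := by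
    intro a b hab
    exact mul_left_cancel₀ hk hab
  have hP0 : P = 0 := by
    apply Polynomial.eq_zero_of_infinite_isRoot
    apply (Set.infinite_range_of_injective hinj).mono
    rintro _ ⟨r, rfl⟩
    exact hroot r
  rw [hP, hP0, Polynomial.eval_zero]

theorem PV_e0 {n : ℕ} {φ : Fin (n + 1) → ℤ} (h : φ 0 = 0) :
    φ ⬝ᵥ (Pi.single 0 1 : Fin (n + 1) → ℤ) = 0 := by
  rw [dotProduct_single, mul_one]
  exact h

theorem PV_fix {n : ℕ} {h : SLZ (n + 1)} (hf : fx h) :
    (h : Matrix (Fin (n + 1)) (Fin (n + 1)) ℤ) *ᵥ (Pi.single 0 1 : Fin (n + 1) → ℤ) =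
      Pi.single 0 1 := by
  rw [mulVec_single_one]
  funext a
  have h2 := (fx_iff h).1 hf a
  rw [Pi.single_apply]
  exact h2

/-- `tv e0 φ` is in the stabiliser -/
theorem PV_tv_fx {n : ℕ} {φ : Fin (n + 1) → ℤ} (h : φ 0 = 0) :
    fx (tv (Pi.single 0 1 : Fin (n + 1) → ℤ) φ) := by
  rw [fx_iff]
  intro i
  rw [tv_coe (PV_e0 h), Matrix.add_apply, vecMulVec_apply, h, mul_zero, add_zero,
    Matrix.one_apply]

/-- elements with trivial block -/
theorem PV_blk {n : ℕ} {g : SLZ (n + 1)} (hf : fx g) (hb : dn (qg g) = 1) :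
    ∃ φ : Fin (n + 1) → ℤ, φ 0 = 0 ∧ g = tv (Pi.single 0 1) φ := by
  refine ⟨Fin.cases 0 (fun j => (g : Matrix (Fin (n + 1)) (Fin (n + 1)) ℤ) 0 j.succ), rfl, ?_⟩
  apply SL_ext
  rw [tv_coe (PV_e0 rfl)]
  ext i j
  rw [Matrix.add_apply, vecMulVec_apply]
  refine Fin.cases ?_ (fun j => ?_) j
  · rw [(fx_iff g).1 hf]
    rw [Fin.cases_zero, mul_zero, add_zero, Matrix.one_apply]
  · rw [Fin.cases_succ]
    refine Fin.cases ?_ (fun i => ?_) i
    · rw [Pi.single_eq_same, one_mul, Matrix.one_apply_ne (Fin.succ_ne_zero j).symm, zero_add]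
    · rw [Pi.single_eq_of_ne (Fin.succ_ne_zero i), zero_mul, add_zero]
      have h1 := congrFun (congrFun hb i) j
      rw [dn_apply, qg_apply] at h1
      by_cases hij : i = j
      · subst hij
        rw [Matrix.one_apply_eq] at h1 ⊢
        exact_mod_cast h1
      · rw [Matrix.one_apply_ne hij] at h1
        rw [Matrix.one_apply_ne (fun h => hij (Fin.succ_injective n h))]
        exact_mod_cast h1

/-- elements with the same block -/
theorem PV_same {n : ℕ} {Z : Subgroup (SLZ (n + 1))}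
    (hZ : ∀ φ : Fin (n + 1) → ℤ, φ 0 = 0 → tv (Pi.single 0 1) φ ∈ Z) {g h : SLZ (n + 1)}
    (hg : fx g) (hh : fx h) (hb : dn (qg g) = dn (qg h)) (hhZ : h ∈ Z) : g ∈ Z := by
  have h1 : fx (g * h⁻¹) := fx_mul hg (fx_inv hh)
  have h2 : dn (qg (g * h⁻¹)) = 1 := by
    rw [qg_mul, dn_mul _ _ (fx_succ hg), hb, ← dn_mul _ _ (fx_succ hh), ← qg_mul, mul_inv_cancel,
      qg_one, dn_one]
  obtain ⟨φ, hφ, he⟩ := PV_blk h1 h2
  have h3 : g = g * h⁻¹ * h := by rw [inv_mul_cancel_right]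
  rw [h3, he]
  exact Z.mul_mem (hZ φ hφ) hhZ

/-- the elementary transvections in the stabiliser -/
theorem PV_up {n : ℕ} {i j : Fin n} (hij : i ≠ j) (c : ℤ) :
    fx (xe i.succ j.succ c) ∧ dn (qg (xe i.succ j.succ c)) = qg (xe i j c) := by
  have hij' : i.succ ≠ j.succ := fun h => hij (Fin.succ_injective n h)
  constructor
  · rw [fx_iff]
    intro a
    unfold xe
    rw [tv_coe (single_dot hij' c), Matrix.add_apply, vecMulVec_apply,
      Pi.single_eq_of_ne (Fin.succ_ne_zero j).symm, mul_zero, add_zero, Matrix.one_apply]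
  · ext a b
    rw [dn_apply, qg_apply, qg_apply]
    unfold xe
    rw [tv_coe (single_dot hij' c), tv_coe (single_dot hij c), Matrix.add_apply, Matrix.add_apply,
      vecMulVec_apply, vecMulVec_apply]
    congr 2
    · by_cases hab : a = b
      · subst hab
        rw [Matrix.one_apply_eq, Matrix.one_apply_eq]
      · rw [Matrix.one_apply_ne hab,
          Matrix.one_apply_ne (fun h => hab (Fin.succ_injective n h))]
    · congr 1
      · by_cases ha : a = i
        · subst ha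
          rw [Pi.single_eq_same, Pi.single_eq_same]
        · rw [Pi.single_eq_of_ne ha, Pi.single_eq_of_ne (fun h => ha (Fin.succ_injective n h))]
      · by_cases hb : b = j
        · subst hb
          rw [Pi.single_eq_same, Pi.single_eq_same]
        · rw [Pi.single_eq_of_ne hb, Pi.single_eq_of_ne (fun h => hb (Fin.succ_injective n h))]

/-- the block of a nilpotent matrix which kills `e0` is nilpotent -/
theorem PV_nil {n : ℕ} {X : MQ (n + 1)} (hX : IsNilpotent X) (h0 : ∀ i : Fin n, X i.succ 0 = 0) :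
    IsNilpotent (dn X) := by
  obtain ⟨k, hk⟩ := hX
  have h1 : ∀ r : ℕ, dn (X ^ r) = dn X ^ r := by
    intro r
    induction r with
    | zero => rw [pow_zero, pow_zero, dn_one]
    | succ r ih => rw [pow_succ', pow_succ', dn_mul _ _ h0, ih]
  refine ⟨k, ?_⟩
  rw [← h1, hk]
  rfl

theorem PV_entry {n : ℕ} {h : SLZ (n + 1)} {s : SLZ n} (hdn : dn (qg h) = qg s) (a b : Fin n) :
    (h : Matrix (Fin (n + 1)) (Fin (n + 1)) ℤ) a.succ b.succ =
      (s : Matrix (Fin n) (Fin n) ℤ) a b := by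
  have h2 := congrFun (congrFun hdn a) b
  rw [dn_apply, qg_apply, qg_apply] at h2
  exact_mod_cast h2

theorem PV (hNSG : UG.NSG_stmt) : PV_stmt := by
  intro n hn N hNS hnorm z hz hz1 hznil
  have hfxN : ∀ g ∈ N, fx g := fun g hg => hNS hg
  -- the block group is normal
  have hnor : (Hb N).Normal := by
    constructor
    intro g hg s
    obtain ⟨t, ht, hts⟩ := exists_up s
    obtain ⟨h, hhN, hhf, hhg⟩ := mem_Hb.1 hg
    rw [mem_Hb]
    refine ⟨t * h * t⁻¹, hnorm t ht h hhN, fx_mul (fx_mul ht hhf) (fx_inv ht), ?_⟩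
    have h1 : dn (qg t⁻¹) = qg s⁻¹ := by
      have h2 : dn (qg t) * dn (qg t⁻¹) = 1 := by
        rw [← dn_mul _ _ (fx_succ ht), ← qg_mul, mul_inv_cancel, qg_one, dn_one]
      have h3 : qg s⁻¹ * (dn (qg t) * dn (qg t⁻¹)) = qg s⁻¹ := by rw [h2, mul_one]
      rw [hts, ← mul_assoc, qg_inv_mul, one_mul] at h3
      exact h3
    rw [qg_mul, qg_mul, dn_mul _ _ (fun i => by
        have := fx_succ (fx_mul ht hhf) i
        rwa [qg_mul] at this), dn_mul _ _ (fx_succ ht), hts, hhg, h1, qg_mul, qg_mul]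
  -- finite index
  have hzf : fx z := hfxN z hz
  have hfi : (Hb N).FiniteIndex := by
    apply hNSG n hn (Hb N) hnor (bl z hzf)
    · exact mem_Hb.2 ⟨z, hz, hzf, (qg_bl z hzf).symm⟩
    · intro h
      apply hz1
      rw [← qg_bl z hzf, h, qg_one]
    · have h1 : qg (bl z hzf) - 1 = dn (qg z - 1) := by
        rw [qg_bl]
        have h2 : dn (qg z - 1) = dn (qg z) - dn 1 := by
          rw [← dnL_apply, ← dnL_apply, ← dnL_apply, map_sub]
        rw [h2, dn_one]
      rw [h1]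
      apply PV_nil hznil
      intro i
      rw [Matrix.sub_apply, fx_succ hzf, Matrix.one_apply_ne (Fin.succ_ne_zero i), sub_zero]
  have hlift : ∀ i j : Fin n, i ≠ j → ∃ k : ℤ, k ≠ 0 ∧ ∃ h ∈ N, dn (qg h) = qg (xe i j k) := by
    intro i j hij
    obtain ⟨k, hk0, -, hk⟩ := Subgroup.exists_pow_mem_of_index_ne_zero hfi.index_ne_zero (xe i j 1)
    obtain ⟨h, hhN, -, hdn⟩ := mem_Hb.1 hk
    refine ⟨(k : ℤ), by exact_mod_cast hk0.ne', h, hhN, ?_⟩
    rw [hdn]
    congr 1
    rw [← one_mul (k : ℤ), PV_xe hij, zpow_natCast]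
  -- (1), (2)
  have hrow : ∀ j : Fin n, ∀ c : ℤ, xe (0 : Fin (n + 1)) j.succ c ∈ Zc N := by
    intro j
    obtain ⟨i, hi⟩ : ∃ i : Fin n, i ≠ j := by
      haveI : Nontrivial (Fin n) := Fin.nontrivial_iff_two_le.mpr (by omega)
      exact exists_ne j
    obtain ⟨k, hk, h, hhN, hdn⟩ := hlift i j hi
    have hhf := hfxN h hhN
    obtain ⟨τ, hτ⟩ : ∃ τ : Fin (n + 1) → ℤ, τ = Pi.single i.succ 1 := ⟨_, rfl⟩
    have hτ0 : τ 0 = 0 := by
      rw [hτ]
      exact Pi.single_eq_of_ne (Fin.succ_ne_zero i).symm _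
    have h1 := PV_e0 hτ0
    have hvec : τ ᵥ* (h : Matrix (Fin (n + 1)) (Fin (n + 1)) ℤ) = τ + Pi.single j.succ k := by
      rw [hτ, Matrix.single_one_vecMul]
      funext b
      rw [Pi.add_apply]
      refine Fin.cases ?_ (fun b => ?_) b
      · show (h : Matrix (Fin (n + 1)) (Fin (n + 1)) ℤ) i.succ 0 = _
        rw [(fx_iff h).1 hhf, if_neg (Fin.succ_ne_zero i),
          Pi.single_eq_of_ne (Fin.succ_ne_zero i).symm, Pi.single_eq_of_ne (Fin.succ_ne_zero j).symm,
          add_zero]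
      · show (h : Matrix (Fin (n + 1)) (Fin (n + 1)) ℤ) i.succ b.succ = _
        rw [PV_entry hdn]
        unfold xe
        rw [tv_coe (single_dot hi k), Matrix.add_apply, vecMulVec_apply, Pi.single_eq_same, one_mul]
        congr 1
        · by_cases hb : i = b
          · subst hb
            rw [Matrix.one_apply_eq, Pi.single_eq_same]
          · rw [Matrix.one_apply_ne hb,
              Pi.single_eq_of_ne (fun h => hb (Fin.succ_injective n h).symm)]
        · by_cases hb : b = j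
          · subst hb
            rw [Pi.single_eq_same, Pi.single_eq_same]
          · rw [Pi.single_eq_of_ne hb, Pi.single_eq_of_ne (fun h => hb (Fin.succ_injective n h))]
    have hconj : h⁻¹ * tv (Pi.single 0 1) τ * (h⁻¹)⁻¹ =
        tv (Pi.single 0 1) (τ + Pi.single j.succ k) := by
      rw [tv_conj h1, PV_fix (fx_inv hhf), inv_inv, hvec]
    have hsk : (Pi.single j.succ k : Fin (n + 1) → ℤ) ⬝ᵥ (Pi.single 0 1 : Fin (n + 1) → ℤ) = 0 :=
      PV_e0 (Pi.single_eq_of_ne (Fin.succ_ne_zero j).symm _)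
    have hmem : xe (0 : Fin (n + 1)) j.succ k ∈ N := by
      have h2 : (tv (Pi.single 0 1) τ)⁻¹ * h⁻¹ * ((tv (Pi.single 0 1) τ)⁻¹)⁻¹ ∈ N :=
        hnorm _ ((St n).inv_mem (PV_tv_fx hτ0)) _ (N.inv_mem hhN)
      have h3 := N.mul_mem h2 hhN
      rw [inv_inv] at h3
      have h4 : (tv (Pi.single 0 1) τ)⁻¹ * h⁻¹ * tv (Pi.single 0 1) τ * h =
          (tv (Pi.single 0 1) τ)⁻¹ * (h⁻¹ * tv (Pi.single 0 1) τ * (h⁻¹)⁻¹) := by
        rw [inv_inv]
        group
      rw [h4, hconj, tv_add_right h1 hsk, inv_mul_cancel_left] at h3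
      exact h3
    exact PV_line (Fin.succ_ne_zero j).symm hk (le_Zc N hmem)
  have hZ : ∀ φ : Fin (n + 1) → ℤ, φ 0 = 0 → tv (Pi.single 0 1) φ ∈ Zc N := by
    intro φ hφ
    apply tv_right_mem
    · intro i
      refine Fin.cases ?_ (fun j => ?_) i
      · rw [hφ, zero_mul]
      · rw [Pi.single_eq_of_ne (Fin.succ_ne_zero j), mul_zero]
    · intro i
      refine Fin.cases ?_ (fun j => ?_) i
      · rw [hφ, Pi.single_zero, tv_zero_right]
        exact (Zc N).one_mem
      · exact hrow j (φ j.succ)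
  -- (3)
  have hxe : ∀ i j : Fin n, i ≠ j → ∀ c : ℤ, xe i.succ j.succ c ∈ Zc N := by
    intro i j hij
    obtain ⟨k, hk, h, hhN, hdn⟩ := hlift i j hij
    apply PV_line (fun h => hij (Fin.succ_injective n h)) hk
    apply PV_same hZ (PV_up hij k).1 (hfxN h hhN) _ (le_Zc N hhN)
    rw [(PV_up hij k).2, hdn]
  -- (4)
  have hall : ∀ γ : SLZ n, ∃ t ∈ Zc N, fx t ∧ dn (qg t) = qg γ := by
    intro γ
    have hγ : γ ∈ ES (Finset.univ : Finset (Fin n)) := by
      rw [ES_univ]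
      exact Subgroup.mem_top γ
    unfold ES at hγ
    induction hγ using Subgroup.closure_induction with
    | mem g hg =>
      obtain ⟨i, -, j, -, hij, c, rfl⟩ := hg
      exact ⟨xe i.succ j.succ c, hxe i j hij c, (PV_up hij c).1, (PV_up hij c).2⟩
    | one => exact ⟨1, (Zc N).one_mem, fx_one, by rw [qg_one, qg_one, dn_one]⟩
    | mul a b _ _ iha ihb =>
      obtain ⟨s, hs, hsf, hsa⟩ := iha
      obtain ⟨t, ht, htf, htb⟩ := ihb
      refine ⟨s * t, (Zc N).mul_mem hs ht, fx_mul hsf htf, ?_⟩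
      rw [qg_mul, dn_mul _ _ (fx_succ hsf), hsa, htb, qg_mul]
    | inv a _ iha =>
      obtain ⟨s, hs, hsf, hsa⟩ := iha
      refine ⟨s⁻¹, (Zc N).inv_mem hs, fx_inv hsf, ?_⟩
      have h2 : dn (qg s) * dn (qg s⁻¹) = 1 := by
        rw [← dn_mul _ _ (fx_succ hsf), ← qg_mul, mul_inv_cancel, qg_one, dn_one]
      have h3 : qg a⁻¹ * (dn (qg s) * dn (qg s⁻¹)) = qg a⁻¹ := by rw [h2, mul_one]
      rw [hsa, ← mul_assoc, qg_inv_mul, one_mul] at h3
      exact h3
  intro s hs
  obtain ⟨t, ht, htf, htb⟩ := hall (bl s hs)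
  apply PV_same hZ hs htf _ ht
  rw [htb, qg_bl]

end Pool.Agent.BS
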